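import Pool.Agent.TMX.Stmts2

set_option autoImplicit false

/-!
# Squad TMX, row GAIN0
-/

namespace Pool.Agent.TMX.H23

open Finset
open Pool.Agent.TMX
open Pool.Agent.Helper51_Max (I IsMax card_I)

theorem mem_I (N v r i : ℕ) : i ∈ I N v r ↔ v - r ≤ i ∧ i ≤ min (v + r) N := by
  unfold I
  exact Finset.mem_Icc

theorem whole (N : ℕ) (g M : ℕ → ℝ) (hM : IsMax N g M) (v : ℕ) (hv : v ≤ N) :
    ∑ i ∈ range (N + 1), g i ≤ ((N : ℝ) + 1) * M v := by
  have h := hM.le v hv N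
  have h1 : I N v N = range (N + 1) := by
    ext i
    rw [mem_I, Finset.mem_range]
    omega
  rw [h1, Finset.card_range] at h
  push_cast at h
  linarith

theorem big_ball (N : ℕ) (g M : ℕ → ℝ) (hM : IsMax N g M) (v ρ z r D : ℕ) (hv : v ≤ N)
    (hrz : r < z) (hrN : z + r < N)
    (hopt : M z * ((I N z r).card : ℝ) = ∑ i ∈ I N z r, g i)
    (h1 : v - ρ ≤ z - r) (h2 : z + r ≤ v + ρ) (h3 : min (v + ρ) N + 1 - (v - ρ) ≤ D) :
    (2 * (r : ℝ) + 1) * M z ≤ M v * (D : ℝ) := by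
  have hc : (I N z r).card = 2 * r + 1 := by
    rw [card_I]
    omega
  rw [hc] at hopt
  push_cast at hopt
  have hsub : I N z r ⊆ I N v ρ := by
    intro i hi
    rw [mem_I] at hi ⊢
    omega
  have hle := hM.le v hv ρ
  have hs : ∑ i ∈ I N z r, g i ≤ ∑ i ∈ I N v ρ, g i :=
    Finset.sum_le_sum_of_subset_of_nonneg hsub (fun i _ _ => hM.nonneg i)
  have hc2 : (I N v ρ).card ≤ D := by
    rw [card_I]
    exact h3
  have hMv : 0 ≤ M v := (hM.nonneg v).trans (Pool.Agent.Helper37_EM.g_le hM hv)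
  have hc3 : ((I N v ρ).card : ℝ) ≤ (D : ℝ) := by exact_mod_cast hc2
  have := mul_le_mul_of_nonneg_left hc3 hMv
  linarith

/-- GAIN0. -/
theorem gain0 : Gain0 := by
  intro N g M hM y z z' r hG
  have hyz := hG.yz
  have hzz := hG.zz
  have hrz := hG.rz
  have hrN := hG.rN
  have hy := hG.hy
  have hz := hG.hz
  have hC := hG.hC
  have s1 := whole N g M hM y (by omega)
  have s2 := whole N g M hM z' (by omega)
  have b1 := big_ball N g M hM y (r + (z - y)) z r (2 * r + 1 + 2 * (z - y)) (by omega) hrz hrN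
    hG.opt (by omega) (by omega) (by omega)
  have b2 := big_ball N g M hM z' (r + (z' - z)) z r (2 * r + 1 + 2 * (z' - z)) (by omega) hrz hrN
    hG.opt (by omega) (by omega) (by omega)
  have hMz : 0 ≤ M z := (hM.nonneg z).trans (Pool.Agent.Helper37_EM.g_le hM (by omega))
  obtain ⟨d, hd⟩ : ∃ d : ℕ, z = y + d := ⟨z - y, by omega⟩
  obtain ⟨d', hd'⟩ : ∃ d' : ℕ, z' = z + d' := ⟨z' - z, by omega⟩
  have e1 : z - y = d := by omega
  have e2 : z' - z = d' := by omega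
  rw [e1] at b1
  rw [e2] at b2
  push_cast at b1 b2
  have hdd : (2 * (d : ℝ) + 2 * (d' : ℝ)) ≤ 2 * (r : ℝ) + 1 := by
    have : 2 * d + 2 * d' ≤ 2 * r + 1 := by omega
    exact_mod_cast this
  have hd0 : (0 : ℝ) ≤ d := Nat.cast_nonneg d
  have hd0' : (0 : ℝ) ≤ d' := Nat.cast_nonneg d'
  have hr0 : (0 : ℝ) ≤ r := Nat.cast_nonneg r
  set l : ℝ := 2 * (r : ℝ) + 1 with hl
  have hl0 : 0 < l := by linarith
  have hP : 0 < l + 2 * (d : ℝ) := by linarith
  have hQ : 0 < l + 2 * (d' : ℝ) := by linarith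
  have c1 : l * M z / (l + 2 * (d : ℝ)) ≤ M y := by
    rw [div_le_iff₀ hP]
    linarith
  have c2 : l * M z / (l + 2 * (d' : ℝ)) ≤ M z' := by
    rw [div_le_iff₀ hQ]
    linarith
  have c3 : 4 / 3 * M z ≤ l * M z / (l + 2 * (d : ℝ)) + l * M z / (l + 2 * (d' : ℝ)) := by
    rw [div_add_div _ _ hP.ne' hQ.ne', le_div_iff₀ (mul_pos hP hQ)]
    have h5 : 4 * ((l + 2 * (d : ℝ)) * (l + 2 * (d' : ℝ))) ≤
        3 * l * ((l + 2 * (d : ℝ)) + (l + 2 * (d' : ℝ))) := by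
      nlinarith [sq_nonneg ((l + 2 * (d : ℝ)) - (l + 2 * (d' : ℝ))),
        mul_nonneg (show (0 : ℝ) ≤ l - (2 * (d : ℝ) + 2 * (d' : ℝ)) by linarith)
          (add_pos hP hQ).le]
    have h6 := mul_le_mul_of_nonneg_left h5 hMz
    nlinarith [h6]
  have hN : (0 : ℝ) < (N : ℝ) + 1 := by positivity
  have c4 : M z ≤ 3 / 4 * (M y + M z') := by linarith
  have c5 := mul_le_mul_of_nonneg_left c4 hN.le
  nlinarith [c5, s1, s2]

end Pool.Agent.TMX.H23
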