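import Pool.Agent.TMX.Stmts

set_option autoImplicit false

/-!
# Squad TMX, row PRE: balls which are initial segments
-/

namespace Pool.Agent.TMX.H23

open Finset
open Pool.Agent.TMX
open Pool.Agent.Helper51_Max (I IsMax card_I)

/-- A lower bound for the mass of a ball above the level `u`. -/
theorem ball_bound (N : ℕ) (g M : ℕ → ℝ) (hM : IsMax N g M) (v r : ℕ) (hv : v ≤ N) (u S : ℝ)
    (hu : ∀ i ∈ I N v r, u ≤ g i) (hS : S ≤ ∑ i ∈ I N v r, (g i - u)) :
    S ≤ ((N : ℝ) + 1) * (M v - u) := by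
  have h0 : 0 ≤ ∑ i ∈ I N v r, (g i - u) :=
    Finset.sum_nonneg fun i hi => sub_nonneg.2 (hu i hi)
  have h1 : ∑ i ∈ I N v r, (g i - u) ≤ (M v - u) * ((I N v r).card : ℝ) := by
    rw [Finset.sum_sub_distrib, Finset.sum_const, nsmul_eq_mul]
    have := hM.le v hv r
    nlinarith [this]
  have hc : 0 < (I N v r).card := by
    rw [card_I]
    omega
  have hc2 : (I N v r).card ≤ N + 1 := by
    rw [card_I]
    omega
  have hcr : (0 : ℝ) < ((I N v r).card : ℝ) := by exact_mod_cast hc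
  have hcr2 : ((I N v r).card : ℝ) ≤ (N : ℝ) + 1 := by exact_mod_cast hc2
  have h2 : 0 ≤ M v - u := by
    by_contra hneg
    push Not at hneg
    have := mul_neg_of_neg_of_pos hneg hcr
    linarith
  calc S ≤ ∑ i ∈ I N v r, (g i - u) := hS
    _ ≤ (M v - u) * ((I N v r).card : ℝ) := h1
    _ ≤ (M v - u) * ((N : ℝ) + 1) := mul_le_mul_of_nonneg_left hcr2 h2
    _ = ((N : ℝ) + 1) * (M v - u) := mul_comm _ _

theorem one_bound (N : ℕ) (g M : ℕ → ℝ) (hM : IsMax N g M) (v r : ℕ) (hv : v ≤ N) (u : ℝ)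
    (hu : ∀ i ∈ I N v r, u ≤ g i) (a : ℕ) (ha : a ∈ I N v r) :
    g a - u ≤ ((N : ℝ) + 1) * (M v - u) := by
  apply ball_bound N g M hM v r hv u _ hu
  exact Finset.single_le_sum (f := fun i => g i - u) (fun i hi => sub_nonneg.2 (hu i hi)) ha

theorem two_bound (N : ℕ) (g M : ℕ → ℝ) (hM : IsMax N g M) (v r : ℕ) (hv : v ≤ N) (u : ℝ)
    (hu : ∀ i ∈ I N v r, u ≤ g i) (a b : ℕ) (ha : a ∈ I N v r) (hb : b ∈ I N v r)
    (hab : a ≠ b) :
    (g a - u) + (g b - u) ≤ ((N : ℝ) + 1) * (M v - u) := by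
  apply ball_bound N g M hM v r hv u _ hu
  rw [← Finset.sum_pair (f := fun i => g i - u) hab]
  apply Finset.sum_le_sum_of_subset_of_nonneg
  · intro i hi
    rw [Finset.mem_insert, Finset.mem_singleton] at hi
    rcases hi with rfl | rfl
    · exact ha
    · exact hb
  · intro i hi _
    exact sub_nonneg.2 (hu i hi)

/-- PRE. -/
theorem pre : Pre := by
  intro N g M k w l hM hB hkw hwl
  have hlN := hB.lN
  have mI : ∀ v r i, i ∈ I N v r ↔ v - r ≤ i ∧ i ≤ min (v + r) N := by
    intro v r i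
    unfold I
    exact Finset.mem_Icc
  refine ⟨?_, ?_, ?_, ?_⟩
  · intro h0
    have := two_bound N g M hM 0 l (Nat.zero_le _) (g 0) ?_ k l ?_ ?_ (by omega)
    · linarith
    · intro i hi
      rw [mI] at hi
      by_cases h1 : i ≤ k
      · exact hB.up1 0 i (Nat.zero_le _) (Nat.zero_le _) h1
      · by_cases h2 : i ≤ w
        · exact h0.trans (hB.dn1 i w (by omega) h2 le_rfl)
        · exact h0.trans (hB.up2 w i le_rfl (by omega) (by omega))
    · rw [mI]
      omega
    · rw [mI]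
      omega
  · apply one_bound N g M hM 0 k (Nat.zero_le _) (g 0) ?_ k ?_
    · intro i hi
      rw [mI] at hi
      exact hB.up1 0 i (Nat.zero_le _) (Nat.zero_le _) (by omega)
    · rw [mI]
      omega
  · have := two_bound N g M hM N N le_rfl 0 (fun i _ => hM.nonneg i) k l ?_ ?_ (by omega)
    · simpa using this
    · rw [mI]
      omega
    · rw [mI]
      omega
  · intro u hu y hy
    apply one_bound N g M hM y (l - y) (by omega) u ?_ l ?_
    · intro i hi
      rw [mI] at hi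
      exact hu i (by omega)
    · rw [mI]
      omega

end Pool.Agent.TMX.H23
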